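import Pool.Agent.Lib.MP_eee7a8_ag.TB.A.Tri

/-!
# TAGBR: coordinates at a cusp and parabolic elements
-/

open Matrix

namespace Pool.Agent.Lib.MP_eee7a8_ag.TB

theorem par_zero (a : Cusp) : par a 0 = 1 := by
  apply Subtype.ext
  ext i j
  fin_cases i <;> fin_cases j <;> simp [par]

theorem par_mul (a : Cusp) (m n : ℤ) : par a m * par a n = par a (m + n) := by
  apply Subtype.ext
  rw [Matrix.SpecialLinearGroup.coe_mul]
  ext i j
  fin_cases i <;> fin_cases j <;>
    simp [par, Matrix.mul_apply, Fin.sum_univ_two] <;> ring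

theorem par_inv (a : Cusp) (n : ℤ) : (par a n)⁻¹ = par a (-n) := by
  rw [inv_eq_iff_mul_eq_one, par_mul, add_neg_cancel, par_zero]

theorem par_pow (a : Cusp) (n : ℤ) (k : ℕ) : par a n ^ k = par a (k * n) := by
  induction k with
  | zero => simp [par_zero]
  | succ k ih => rw [pow_succ, ih, par_mul]; congr 1; push_cast; ring

theorem par_zpow (a : Cusp) (n : ℤ) (k : ℤ) : par a n ^ k = par a (k * n) := by
  rcases k with k | k
  · simp only [Int.ofNat_eq_natCast, zpow_natCast, par_pow]
  · rw [zpow_negSucc, par_pow, par_inv]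
    congr 1
    push_cast [Int.negSucc_eq]
    ring

theorem par_smul_self (a : Cusp) (n : ℤ) : par a n • a = a := by
  symm
  apply dt_eq_zero.1
  unfold dt
  rw [smul_x', smul_y']
  simp only [par, Matrix.of_apply, Matrix.cons_val', Matrix.cons_val_zero, Matrix.cons_val_one,
    Matrix.cons_val_fin_one]
  ring

/-- `par a n` adds `n dt(a,x)` times the vector `a` to the vector `x`. -/
theorem par_smul_x (a x : Cusp) (n : ℤ) :
    eps (par a n) x * (par a n • x).x = x.x + n * dt a x * a.x := by
  rw [smul_x]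
  simp only [par, Matrix.of_apply, Matrix.cons_val', Matrix.cons_val_zero, Matrix.cons_val_one,
    Matrix.cons_val_fin_one, dt]
  ring

theorem par_smul_y (a x : Cusp) (n : ℤ) :
    eps (par a n) x * (par a n • x).y = x.y + n * dt a x * a.y := by
  rw [smul_y]
  simp only [par, Matrix.of_apply, Matrix.cons_val', Matrix.cons_val_zero, Matrix.cons_val_one,
    Matrix.cons_val_fin_one, dt]
  ring

theorem par_dt (a x y : Cusp) (n : ℤ) :
    eps (par a n) y * dt x (par a n • y) = dt x y + n * dt a y * dt x a := by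
  have h1 := par_smul_x a y n
  have h2 := par_smul_y a y n
  have : eps (par a n) y * dt x (par a n • y) =
      x.x * (eps (par a n) y * (par a n • y).y) - x.y * (eps (par a n) y * (par a n • y).x) := by
    unfold dt; ring
  rw [this, h1, h2]
  unfold dt; ring

/-- The elements fixing a cusp are parabolic (up to sign). -/
theorem fix_par {g : SLZ} {a : Cusp} (h : g • a = a) :
    ∃ n : ℤ, g = par a n ∨ g = -par a n := by
  -- `g v = e v`
  have hx := smul_x g a
  have hy := smul_y g a
  rw [h] at hx hy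
  set e := eps g a with he
  have hd := det_eq g
  obtain ⟨u, v, huv⟩ := a.cop
  have hee : e * e = 1 := eps_sq g a
  -- first column etc. of `e g - 1`
  -- trace of `g` is `2 e`
  have key : ∀ (p q r s x y e u v : ℤ), e * x = p * x + q * y → e * y = r * x + s * y →
      p * s - q * r = 1 → u * x + v * y = 1 → e * e = 1 → p + s = 2 * e := by
    intro p q r s x y e u v h1 h2 h3 h4 h5
    -- characteristic polynomial at `e`
    have c1 : (e * e - (p + s) * e + 1) * x = 0 := by
      linear_combination (e - s) * h1 + q * h2 + x * (-1 : ℤ) * h3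
    have c2 : (e * e - (p + s) * e + 1) * y = 0 := by
      linear_combination (e - p) * h2 + r * h1 + y * (-1 : ℤ) * h3
    have c3 : e * e - (p + s) * e + 1 = 0 := by
      linear_combination u * c1 + v * c2 - (e * e - (p + s) * e + 1) * h4
    have : (p + s) * e = 2 := by linarith
    calc p + s = (p + s) * (e * e) := by rw [h5, mul_one]
      _ = ((p + s) * e) * e := by ring
      _ = 2 * e := by rw [this]
  have htr := key _ _ _ _ _ _ _ _ _ hx hy hd huv hee
  -- `e g = 1 + n (...)`
  set p := g.1 0 0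
  set q := g.1 0 1
  set r := g.1 1 0
  set s := g.1 1 1
  -- N = e g - 1: entries P = e p - 1, Q = e q, R = e r, S = e s - 1 with P x + Q y = 0 ...
  have hP : (e * p - 1) * a.x + e * q * a.y = 0 := by
    linear_combination (-e) * hx + a.x * hee
  have hR : e * r * a.x + (e * s - 1) * a.y = 0 := by
    linear_combination (-e) * hy + a.y * hee
  have hPS : (e * p - 1) + (e * s - 1) = 0 := by
    linear_combination e * htr + 2 * hee
  -- (P,Q) = c (-y, x), (R,S) = d (-y, x)
  obtain ⟨c, hc1, hc2⟩ : ∃ c : ℤ, e * p - 1 = -(c * a.y) ∧ e * q = c * a.x := by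
    refine ⟨e * q * u - (e * p - 1) * v, ?_, ?_⟩
    · linear_combination (-(e * p - 1)) * huv + u * hP
    · linear_combination (-(e * q)) * huv + v * hP
  obtain ⟨d, hd1, hd2⟩ : ∃ d : ℤ, e * r = -(d * a.y) ∧ e * s - 1 = d * a.x := by
    refine ⟨(e * s - 1) * u - e * r * v, ?_, ?_⟩
    · linear_combination (-(e * r)) * huv + u * hR
    · linear_combination (-(e * s - 1)) * huv + v * hR
  -- `-c y + d x = 0`
  have hcd : d * a.x = c * a.y := by linarith
  obtain ⟨n, hn1, hn2⟩ : ∃ n : ℤ, c = n * a.x ∧ d = n * a.y := by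
    refine ⟨u * c + v * d, ?_, ?_⟩
    · linear_combination (-c) * huv - v * hcd
    · linear_combination (-d) * huv + u * hcd
  have e1 : e * p = 1 - n * a.x * a.y := by rw [hn1] at hc1; linarith
  have e2 : e * q = n * a.x * a.x := by rw [hn1] at hc2; linarith
  have e3 : e * r = -(n * a.y * a.y) := by rw [hn2] at hd1; linarith
  have e4 : e * s = 1 + n * a.x * a.y := by rw [hn2] at hd2; linarith
  refine ⟨n, ?_⟩
  rcases eps_or g a with h1 | h1
  · left
    rw [← he] at h1
    rw [h1, one_mul] at e1 e2 e3 e4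
    apply Subtype.ext
    ext i j
    fin_cases i <;> fin_cases j
    · exact e1
    · exact e2
    · exact e3
    · exact e4
  · right
    rw [← he] at h1
    rw [h1] at e1 e2 e3 e4
    apply Subtype.ext
    ext i j
    fin_cases i <;> fin_cases j
    · change p = -(1 - n * a.x * a.y); linarith
    · change q = -(n * a.x * a.x); linarith
    · change r = -(-(n * a.y * a.y)); linarith
    · change s = -(1 + n * a.x * a.y); linarith

/-- Transitivity of `SL(2,ℤ)` on cusps. -/
theorem exists_smul_infty (a : Cusp) : ∃ g : SLZ, g • a = infty := by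
  obtain ⟨u, v, huv⟩ := a.cop
  let g : SLZ := ⟨!![u, v; -a.y, a.x], by rw [Matrix.det_fin_two_of]; linarith⟩
  refine ⟨g, ?_⟩
  apply dt_eq_zero.1
  have h2 := smul_y g a
  have e : g.1 1 0 * a.x + g.1 1 1 * a.y = 0 := by
    change -a.y * a.x + a.x * a.y = 0
    ring
  rw [e] at h2
  rcases mul_eq_zero.1 h2 with h3 | h3
  · exact absurd h3 (eps_ne_zero g a)
  · simp [dt, infty, h3]

/-- Rational coordinate of a finite cusp. -/
noncomputable def val (a : Cusp) : ℚ := (a.x : ℚ) / a.y

theorem Cusp.y_pos {a : Cusp} (h : a ≠ infty) : 0 < a.y := by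
  rcases a.nrm with h1 | ⟨h1, h2⟩
  · exact h1
  · exact absurd (Cusp.ext h2 h1 : a = infty) h

theorem lt_iff_val {a b : Cusp} (ha : a ≠ infty) (hb : b ≠ infty) : a < b ↔ val a < val b := by
  have h1 : (0 : ℚ) < a.y := by exact_mod_cast Cusp.y_pos ha
  have h2 : (0 : ℚ) < b.y := by exact_mod_cast Cusp.y_pos hb
  rw [lt_iff_dt, val, val, div_lt_div_iff₀ h1 h2, dt]
  constructor
  · intro h
    have : ((a.x * b.y - a.y * b.x : ℤ) : ℚ) < 0 := by exact_mod_cast h
    push_cast at this
    linarith
  · intro h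
    have : ((a.x * b.y - a.y * b.x : ℤ) : ℚ) < 0 := by push_cast; linarith
    exact_mod_cast this

theorem val_inj {a b : Cusp} (ha : a ≠ infty) (hb : b ≠ infty) (h : val a = val b) : a = b := by
  rcases lt_trichotomy a b with h1 | h1 | h1
  · rw [lt_iff_val ha hb] at h1; exact absurd h1 (by rw [h]; exact lt_irrefl _)
  · exact h1
  · rw [lt_iff_val hb ha] at h1; exact absurd h1 (by rw [h]; exact lt_irrefl _)

theorem lt_infty {a : Cusp} (h : a ≠ infty) : a < infty := by
  rw [lt_iff_dt]
  have := Cusp.y_pos h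
  simp only [dt, infty]
  linarith

/-- Crossing with the cusp at infinity. -/
theorem cross_infty {b x y : Cusp} (hb : b ≠ infty) (hx : x ≠ infty) (hy : y ≠ infty) :
    Cross infty b x y ↔ (val x < val b ∧ val b < val y) ∨ (val y < val b ∧ val b < val x) := by
  have h1 := lt_infty hb
  have h2 := lt_infty hx
  have h3 := lt_infty hy
  rw [← lt_iff_val hx hb, ← lt_iff_val hb hy, ← lt_iff_val hy hb, ← lt_iff_val hb hx]
  simp only [cross_iff]
  grind

theorem val_par {x : Cusp} (n : ℤ) (hx : x ≠ infty) :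
    par infty n • x ≠ infty ∧ val (par infty n • x) = val x + n := by
  have h0 := Cusp.y_pos hx
  have hne : par infty n • x ≠ infty := by
    intro h
    apply hx
    have := par_smul_self infty n
    exact smul_left_cancel (par infty n) (h.trans this.symm)
  refine ⟨hne, ?_⟩
  have h1 := par_smul_x infty x n
  have h2 := par_smul_y infty x n
  have h3 := Cusp.y_pos hne
  have hd : dt infty x = x.y := by simp [dt, infty]
  rw [hd] at h1 h2
  simp only [infty, mul_one, mul_zero, add_zero] at h1 h2
  have he : eps (par infty n) x = 1 := by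
    rcases eps_or (par infty n) x with h | h
    · exact h
    · exfalso
      have h2' : eps (par infty n) x * (par infty n • x).y = x.y := h2
      rw [h] at h2'
      linarith
  have h1' : eps (par infty n) x * (par infty n • x).x = x.x + n * x.y := h1
  have h2' : eps (par infty n) x * (par infty n • x).y = x.y := h2
  rw [he, one_mul] at h1' h2'
  rw [val, val, h1', h2']
  have : (x.y : ℚ) ≠ 0 := by exact_mod_cast ne_of_gt h0
  field_simp
  push_cast
  ring

/-- Conjugation of a parabolic element. -/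
theorem conj_par (h : SLZ) (c : Cusp) (n : ℤ) : h * par c n * h⁻¹ = par (h • c) n := by
  have hx := smul_x h c
  have hy := smul_y h c
  have hee := eps_sq h c
  have hd := det_eq h
  set e := eps h c
  apply Subtype.ext
  have hinv : ((h⁻¹ : SLZ) : Matrix (Fin 2) (Fin 2) ℤ) =
      !![h.1 1 1, -h.1 0 1; -h.1 1 0, h.1 0 0] := by
    rw [Matrix.SpecialLinearGroup.coe_inv, Matrix.adjugate_fin_two]
  rw [Matrix.SpecialLinearGroup.coe_mul, Matrix.SpecialLinearGroup.coe_mul, hinv]
  have e1 : (h • c).x * (h • c).x = (h.1 0 0 * c.x + h.1 0 1 * c.y) ^ 2 := by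
    rw [← hx]; linear_combination (-((h • c).x * (h • c).x)) * hee
  have e2 : (h • c).x * (h • c).y =
      (h.1 0 0 * c.x + h.1 0 1 * c.y) * (h.1 1 0 * c.x + h.1 1 1 * c.y) := by
    rw [← hx, ← hy]; linear_combination (-((h • c).x * (h • c).y)) * hee
  have e3 : (h • c).y * (h • c).y = (h.1 1 0 * c.x + h.1 1 1 * c.y) ^ 2 := by
    rw [← hy]; linear_combination (-((h • c).y * (h • c).y)) * hee
  ext i j
  fin_cases i <;> fin_cases j <;>
    simp only [par, Matrix.mul_apply, Fin.sum_univ_two, Fin.zero_eta, Fin.mk_one, Fin.isValue,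
      Matrix.of_apply, Matrix.cons_val', Matrix.cons_val_zero, Matrix.cons_val_one,
      Matrix.cons_val_fin_one]
  · linear_combination hd + n * e2
  · linear_combination (-n) * e1
  · linear_combination n * e3
  · linear_combination hd - n * e2

/-- Coordinates at a cusp. -/
theorem coord (c : Cusp) : ∃ t : Cusp → ℚ,
    (∀ x y, x ≠ c → y ≠ c → t x = t y → x = y) ∧
    (∀ n : ℤ, ∀ x, x ≠ c → par c n • x ≠ c ∧ t (par c n • x) = t x + n) ∧
    (∀ g : SLZ, g • c = c → ∃ n : ℤ, (g = par c n ∨ g = -par c n) ∧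
      ∀ x, x ≠ c → g • x ≠ c ∧ t (g • x) = t x + n) ∧
    (∀ b x y, b ≠ c → x ≠ c → y ≠ c →
      (Cross c b x y ↔ (t x < t b ∧ t b < t y) ∨ (t y < t b ∧ t b < t x))) ∧
    (∀ a b x y, a ≠ c → b ≠ c → x ≠ c → y ≠ c → (Cross a b x y ↔
      (((t a < t x ∧ t x < t b) ∨ (t b < t x ∧ t x < t a)) ∧
        ((t a < t y ∧ t b < t y) ∨ (t y < t a ∧ t y < t b))) ∨
      (((t a < t x ∧ t b < t x) ∨ (t x < t a ∧ t x < t b)) ∧
        ((t a < t y ∧ t y < t b) ∨ (t b < t y ∧ t y < t a))))) := by
  obtain ⟨h, hh⟩ := exists_smul_infty c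
  have hne : ∀ x, x ≠ c → h • x ≠ infty := by
    intro x hx e
    exact hx (smul_left_cancel h (e.trans hh.symm))
  have hpar : ∀ n : ℤ, ∀ x, x ≠ c → par c n • x ≠ c ∧
      val (h • par c n • x) = val (h • x) + n := by
    intro n x hx
    refine ⟨?_, ?_⟩
    · intro e
      exact hx (smul_left_cancel (par c n) (e.trans (par_smul_self c n).symm))
    · have e : h • par c n • x = par infty n • h • x := by
        rw [← mul_smul, ← mul_smul, ← hh, ← conj_par, inv_mul_cancel_right]
      rw [e, (val_par n (hne x hx)).2]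
  refine ⟨fun x => val (h • x), ?_, hpar, ?_, ?_, ?_⟩
  · intro x y hx hy e
    exact smul_left_cancel h (val_inj (hne x hx) (hne y hy) e)
  · intro g hg
    obtain ⟨n, hn⟩ := fix_par hg
    refine ⟨n, hn, fun x hx => ?_⟩
    rcases hn with rfl | rfl
    · exact hpar n x hx
    · rw [neg_smul']; exact hpar n x hx
  · intro b x y hb hx hy
    rw [← cross_smul h, hh, cross_infty (hne b hb) (hne x hx) (hne y hy)]
  · intro a b x y ha hb hx hy
    rw [← cross_smul h, cross_iff]
    simp only [lt_iff_val (hne a ha) (hne x hx), lt_iff_val (hne x hx) (hne b hb),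
      lt_iff_val (hne b hb) (hne x hx), lt_iff_val (hne x hx) (hne a ha),
      lt_iff_val (hne a ha) (hne y hy), lt_iff_val (hne y hy) (hne b hb),
      lt_iff_val (hne b hb) (hne y hy), lt_iff_val (hne y hy) (hne a ha)]

end Pool.Agent.Lib.MP_eee7a8_ag.TB
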