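import Pool.Agent.Lib.MP_eee7a8_ag.TB.Fam

/-!
# TAGBR: the linear order on cusps (the cyclic order cut at infinity) and crossing

`a < b` means `dt a b < 0` for the normalised vectors (`∞` is the top element).  All combinatorial
statements on `Cross` are statements on this linear order (`cross_iff`).
-/

open Matrix

namespace Pool.Agent.Lib.MP_eee7a8_ag.TB

theorem dt_lt_trans {a b c : Cusp} (h1 : dt a b < 0) (h2 : dt b c < 0) : dt a c < 0 := by
  unfold dt at *
  rcases a.nrm with ha | ⟨ha, ha'⟩ <;> rcases b.nrm with hb | ⟨hb, hb'⟩ <;>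
    rcases c.nrm with hc | ⟨hc, hc'⟩
  · by_contra h
    push Not at h
    have e : b.y * (a.x * c.y - a.y * c.x) = c.y * (a.x * b.y - a.y * b.x) +
      a.y * (b.x * c.y - b.y * c.x) := by ring
    nlinarith [mul_pos hc (neg_pos.2 h1), mul_pos ha (neg_pos.2 h2), mul_nonneg (le_of_lt hb) h]
  · rw [hc, hc']; nlinarith
  · rw [hb, hb'] at h2; nlinarith
  · rw [hb, hb', hc, hc'] at h2; simp at h2
  · rw [ha, ha'] at h1; nlinarith
  · rw [ha, ha'] at h1; nlinarith
  · rw [ha, ha', hb, hb'] at h1; simp at h1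
  · rw [ha, ha', hb, hb'] at h1; simp at h1

noncomputable instance : LinearOrder Cusp where
  le a b := dt a b ≤ 0
  lt a b := dt a b < 0
  le_refl a := le_of_eq (dt_self a)
  le_trans a b c h1 h2 := by
    rcases eq_or_lt_of_le h1 with h1' | h1'
    · rw [dt_eq_zero.1 h1']; exact h2
    rcases eq_or_lt_of_le h2 with h2' | h2'
    · rw [← dt_eq_zero.1 h2']; exact h1
    exact le_of_lt (dt_lt_trans h1' h2')
  lt_iff_le_not_ge a b := by
    rw [dt_symm b a]
    constructor
    · intro h; constructor <;> linarith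
    · rintro ⟨h1, h2⟩; linarith
  le_antisymm a b h1 h2 := by
    rw [dt_symm] at h2
    exact dt_eq_zero.1 (by linarith)
  le_total a b := by
    rw [dt_symm b a]
    rcases le_total (dt a b) 0 with h | h
    · exact Or.inl h
    · exact Or.inr (by linarith)
  toDecidableLE := Classical.decRel _

theorem lt_iff_dt {a b : Cusp} : a < b ↔ dt a b < 0 := Iff.rfl

theorem le_iff_dt {a b : Cusp} : a ≤ b ↔ dt a b ≤ 0 := Iff.rfl

theorem lt_iff_dt' {a b : Cusp} : a < b ↔ 0 < dt b a := by
  rw [lt_iff_dt, dt_symm]; constructor <;> intro h <;> linarith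

/-- `c` lies strictly between `a` and `b` iff the product of determinants is negative. -/
theorem dt_mul_neg {a b c : Cusp} : dt a c * dt b c < 0 ↔ (a < c ∧ c < b) ∨ (b < c ∧ c < a) := by
  rw [mul_neg_iff, lt_iff_dt (a := a) (b := c), lt_iff_dt' (a := c) (b := b),
    lt_iff_dt (a := b) (b := c), lt_iff_dt' (a := c) (b := a)]
  tauto

theorem dt_mul_pos {a b c : Cusp} : 0 < dt a c * dt b c ↔ (a < c ∧ b < c) ∨ (c < a ∧ c < b) := by
  rw [mul_pos_iff, lt_iff_dt (a := a) (b := c), lt_iff_dt (a := b) (b := c),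
    lt_iff_dt' (a := c) (b := a), lt_iff_dt' (a := c) (b := b)]
  tauto

/-- Crossing in terms of the linear order. -/
theorem cross_iff {a b c d : Cusp} : Cross a b c d ↔
    (((a < c ∧ c < b) ∨ (b < c ∧ c < a)) ∧ ((a < d ∧ b < d) ∨ (d < a ∧ d < b))) ∨
    (((a < c ∧ b < c) ∨ (c < a ∧ c < b)) ∧ ((a < d ∧ d < b) ∨ (b < d ∧ d < a))) := by
  unfold Cross
  rw [mul_neg_iff, dt_mul_neg, dt_mul_neg, dt_mul_pos, dt_mul_pos]
  tauto

/-- Exactly one of the three pairings of four distinct cusps crosses. -/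
theorem cross_three {a b c d : Cusp} (h1 : a ≠ b) (h2 : a ≠ c) (h3 : a ≠ d) (h4 : b ≠ c)
    (h5 : b ≠ d) (h6 : c ≠ d) : Cross a b c d ∨ Cross a c b d ∨ Cross a d b c := by
  simp only [cross_iff]
  grind

theorem cross_excl {a b c d : Cusp} (h : Cross a b c d) : ¬ Cross a c b d ∧ ¬ Cross a d b c := by
  simp only [cross_iff] at *
  grind

/-- Uniqueness of the third vertex. -/
theorem third_unique {a a' c d : Cusp} (h : ¬ Cross a a' c d)
    (h1 : ¬ Cross a c a' d) (h2 : ¬ Cross a d a' c)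
    (ha : a ≠ c) (ha' : a ≠ d) (hb : a' ≠ c) (hb' : a' ≠ d) (hcd : c ≠ d) : a = a' := by
  by_contra hne
  rcases cross_three hne ha ha' hb hb' hcd with h3 | h3 | h3
  · exact h h3
  · exact h1 h3
  · exact h2 h3

/-- An edge crossing the diagonal `af` of a quadrilateral and no side, not crossing `cd`, is
`cd`. -/
theorem diag_unique {a f c d p q : Cusp} (h : Cross a f c d) (hpq : Cross a f p q)
    (h1 : ¬ Cross a c p q) (h2 : ¬ Cross a d p q) (h3 : ¬ Cross f c p q) (h4 : ¬ Cross f d p q)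
    : (p = c ∧ q = d) ∨ (p = d ∧ q = c) := by
  simp only [cross_iff] at *
  grind (splits := 60)

end Pool.Agent.Lib.MP_eee7a8_ag.TB
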