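import Pool.Agent.Lib.MP_eee7a8_ag.TB.A.Ord

/-!
# TAGBR: elementary facts on families of arcs and triangulations
-/

open Matrix

namespace Pool.Agent.Lib.MP_eee7a8_ag.TB

variable {G : Subgroup SLZ}

theorem SameArc.refl (a b : Cusp) : SameArc G a b a b :=
  ⟨1, G.one_mem, Or.inl ⟨one_smul _ _, one_smul _ _⟩⟩

theorem SameArc.rev (a b : Cusp) : SameArc G a b b a :=
  ⟨1, G.one_mem, Or.inr ⟨one_smul _ _, one_smul _ _⟩⟩

theorem SameArc.symm {a b c d : Cusp} (h : SameArc G a b c d) : SameArc G c d a b := by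
  obtain ⟨g, hg, ⟨h1, h2⟩ | ⟨h1, h2⟩⟩ := h
  · refine ⟨g⁻¹, G.inv_mem hg, Or.inl ⟨?_, ?_⟩⟩
    · rw [← h1, inv_smul_smul]
    · rw [← h2, inv_smul_smul]
  · refine ⟨g⁻¹, G.inv_mem hg, Or.inr ⟨?_, ?_⟩⟩
    · rw [← h2, inv_smul_smul]
    · rw [← h1, inv_smul_smul]

theorem SameArc.trans {a b c d e f : Cusp} (h : SameArc G a b c d) (h' : SameArc G c d e f) :
    SameArc G a b e f := by
  obtain ⟨g, hg, ⟨h1, h2⟩ | ⟨h1, h2⟩⟩ := h <;> obtain ⟨k, hk, ⟨h3, h4⟩ | ⟨h3, h4⟩⟩ := h'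
  · exact ⟨k * g, G.mul_mem hk hg, Or.inl ⟨by rw [mul_smul, h1, h3], by rw [mul_smul, h2, h4]⟩⟩
  · exact ⟨k * g, G.mul_mem hk hg, Or.inr ⟨by rw [mul_smul, h1, h3], by rw [mul_smul, h2, h4]⟩⟩
  · exact ⟨k * g, G.mul_mem hk hg, Or.inr ⟨by rw [mul_smul, h1, h4], by rw [mul_smul, h2, h3]⟩⟩
  · exact ⟨k * g, G.mul_mem hk hg, Or.inl ⟨by rw [mul_smul, h1, h4], by rw [mul_smul, h2, h3]⟩⟩

theorem SameArc.smul {g : SLZ} (hg : g ∈ G) (a b : Cusp) : SameArc G a b (g • a) (g • b) :=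
  ⟨g, hg, Or.inl ⟨rfl, rfl⟩⟩

theorem SameArc.smul_right {g : SLZ} (hg : g ∈ G) {a b c d : Cusp} (h : SameArc G a b c d) :
    SameArc G a b (g • c) (g • d) := h.trans (SameArc.smul hg c d)

theorem SameArc.abs_dt {a b c d : Cusp} (h : SameArc G a b c d) : |dt a b| = |dt c d| := by
  obtain ⟨g, _, ⟨h1, h2⟩ | ⟨h1, h2⟩⟩ := h
  · rw [← h1, ← h2, abs_dt_smul]
  · rw [← h1, ← h2, dt_abs_symm (g • b), abs_dt_smul]

theorem SameArc.ne {a b c d : Cusp} (h : SameArc G a b c d) (hab : a ≠ b) : c ≠ d := by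
  intro e
  apply hab
  rw [← dt_eq_zero, ← abs_eq_zero, h.abs_dt, e, dt_self, abs_zero]

theorem Simple.of_same {a b c d : Cusp} (h : Simple G a b) (h' : SameArc G a b c d) :
    Simple G c d := by
  refine ⟨h'.ne h.1, ?_⟩
  obtain ⟨k, hk, ⟨rfl, rfl⟩ | ⟨rfl, rfl⟩⟩ := h'
  · intro g hg hc
    refine h.2 (k⁻¹ * g * k) (G.mul_mem (G.mul_mem (G.inv_mem hk) hg) hk) ?_
    rw [← cross_smul k]
    rwa [← mul_smul, ← mul_smul, show k * (k⁻¹ * g * k) = g * k by group, mul_smul, mul_smul]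
  · intro g hg hc
    refine h.2 (k⁻¹ * g * k) (G.mul_mem (G.mul_mem (G.inv_mem hk) hg) hk) ?_
    rw [← cross_smul k]
    rw [← mul_smul, ← mul_smul, show k * (k⁻¹ * g * k) = g * k by group, mul_smul, mul_smul]
    exact cross_comm_left.1 (cross_comm_right.1 hc)

section Fam

variable {ι : Type} {T : Fam ι}

theorem Fam.E.symm {a b : Cusp} (h : T.E G a b) : T.E G b a := by
  obtain ⟨i, h⟩ := h
  exact ⟨i, h.trans (SameArc.rev a b)⟩

theorem Fam.E_comm {a b : Cusp} : T.E G a b ↔ T.E G b a := ⟨Fam.E.symm, Fam.E.symm⟩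

theorem Fam.E.same {a b c d : Cusp} (h : T.E G a b) (h' : SameArc G a b c d) : T.E G c d := by
  obtain ⟨i, h⟩ := h
  exact ⟨i, h.trans h'⟩

theorem Fam.E.smul {g : SLZ} (hg : g ∈ G) {a b : Cusp} (h : T.E G a b) :
    T.E G (g • a) (g • b) := h.same (SameArc.smul hg a b)

theorem Fam.E_smul_iff {g : SLZ} (hg : g ∈ G) {a b : Cusp} :
    T.E G (g • a) (g • b) ↔ T.E G a b := by
  refine ⟨fun h => ?_, fun h => h.smul hg⟩
  have := h.smul (G.inv_mem hg)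
  rwa [inv_smul_smul, inv_smul_smul] at this

theorem Fam.E_self (T : Fam ι) (i : ι) : T.E G (T.s i) (T.t i) := ⟨i, SameArc.refl _ _⟩

theorem Fam.NonCross.ne' (hT : T.NonCross G) {a b : Cusp} (h : T.E G a b) : a ≠ b := by
  obtain ⟨i, h⟩ := h
  exact h.ne (hT.ne i)

theorem Fam.NonCross.simple (hT : T.NonCross G) {a b : Cusp} (h : T.E G a b) :
    Simple G a b :=
  ⟨hT.ne' h, fun _ hg hc => hT.nocross _ _ _ _ h (h.smul hg) hc⟩

/-- Uniqueness of the third vertex of a triangle on a given side of `cd`. -/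
theorem Fam.NonCross.third (hT : T.NonCross G) {a a' c d : Cusp} (hcd : T.E G c d)
    (h1 : T.E G a c) (h2 : T.E G a d) (h3 : T.E G a' c) (h4 : T.E G a' d)
    (h : ¬ Cross a a' c d) : a = a' :=
  third_unique h (hT.nocross _ _ _ _ h1 h4) (hT.nocross _ _ _ _ h2 h3) (hT.ne' h1) (hT.ne' h2)
    (hT.ne' h3) (hT.ne' h4) (hT.ne' hcd)

/-- The diagonal `af` of a quadrilateral of edges crosses no edge except `cd`. -/
theorem Fam.NonCross.diag (hT : T.NonCross G) {a f c d p q : Cusp}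
    (h1 : T.E G a c) (h2 : T.E G a d) (h3 : T.E G f c) (h4 : T.E G f d) (h : Cross a f c d)
    (hpq : T.E G p q) (hc : Cross a f p q) : (p = c ∧ q = d) ∨ (p = d ∧ q = c) :=
  diag_unique h hc (hT.nocross _ _ _ _ h1 hpq) (hT.nocross _ _ _ _ h2 hpq)
    (hT.nocross _ _ _ _ h3 hpq) (hT.nocross _ _ _ _ h4 hpq)

theorem Fam.IsTri.index (hT : T.IsTri G) {i j : ι} {a b : Cusp} (h : SameArc G (T.s i) (T.t i) a b)
    (h' : SameArc G (T.s j) (T.t j) a b) : i = j := hT.inj i j (h.trans h'.symm)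

open Classical in
theorem Fam.del_of (hT : T.IsTri G) {i : ι} {a b : Cusp} (h : SameArc G (T.s i) (T.t i) a b) :
    T.del G a b = Pi.single i 1 := by
  have hE : T.E G a b := ⟨i, h⟩
  unfold Fam.del
  rw [dif_pos hE, hT.index hE.choose_spec h]

end Fam

end Pool.Agent.Lib.MP_eee7a8_ag.TB
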